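import Pool.Agent.RGB.Final

/-!
# Rank gradient of Bestvina-Brady groups

Let `L` be a finite connected graph with at least two vertices, `G` a group generated by the
vertices of `L`, with relators in the commutator subgroup of the free group on the vertices, such that adjacent
vertices commute and, for every vertex `v`, every relator is a word in `v` and the vertices of one
component of `L - v`; let `H` be the kernel of the homomorphism `G → ℤ` which maps every vertex to
`1`. (If there are no relators except the commutators of the adjacent vertices then `G` is the
right-angled Artin group and `H` is the Bestvina-Brady group of `L`.) Then `H` is finitely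
generated and the rank gradient of `H` along every Farber sequence exists and equals
`∑ v, (c(L - v) - 1)`, where `c(L - v)` is the number of connected components of `L - v`.
-/

set_option autoImplicit false

open Filter Topology

namespace Pool.Agent.Results.MP_9393c5_al.BestvinaBrady

/-- The rank gradient of Bestvina-Brady groups does not depend on the Farber sequence. -/
theorem result :
    ∀ (V : Type) [Fintype V] [Nontrivial V] (L : SimpleGraph V), L.Connected →
      ∀ R : Set (FreeGroup V),
        (∀ v w, L.Adj v w →
          FreeGroup.of v * FreeGroup.of w * (FreeGroup.of v)⁻¹ * (FreeGroup.of w)⁻¹ ∈ R) →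
        (∀ r ∈ R, r ∈ commutator (FreeGroup V)) →
        (∀ r ∈ R, ∀ v, ∃ C : (L.induce {w | w ≠ v}).ConnectedComponent,
          r ∈ Subgroup.closure (FreeGroup.of '' (insert v (Subtype.val '' C.supp)))) →
        ∀ χ : PresentedGroup R →* Multiplicative ℤ,
          (∀ v, χ (PresentedGroup.of v) = Multiplicative.ofAdd 1) →
          Group.FG χ.ker ∧
          ∀ Γn : ℕ → Subgroup χ.ker,
            (∀ n, (Γn n).FiniteIndex) →
            (∀ γ : χ.ker, γ ≠ 1 →
              Tendsto (fun n => (Nat.card {x : χ.ker ⧸ Γn n // γ • x = x} : ℝ) /
                ((Γn n).index : ℝ)) atTop (𝓝 0)) →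
            Tendsto (fun n =>
                (((sInf {k : ℕ | ∃ s : Finset (Γn n), s.card = k ∧
                      Subgroup.closure (s : Set (Γn n)) = ⊤} : ℕ) : ℝ) - 1) /
                    ((Γn n).index : ℝ))
              atTop (𝓝 (∑ v, ((Nat.card (L.induce {w | w ≠ v}).ConnectedComponent : ℝ) - 1))) := by
  intro V _ _ L hL R h1 h2 h3 χ hχ
  have hR : RGB.Rel L R := by
    refine ⟨h1, fun r hr v => ?_, h3⟩
    · have h4 : commutator (FreeGroup V) ≤ (RGB.expo v).ker := Abelianization.commutator_subset_ker _
      exact h4 (h2 r hr)
  exact RGB.main L hL R hR χ hχ

end Pool.Agent.Results.MP_9393c5_al.BestvinaBrady
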